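import Pool.Agent.H90.EH.Targets

/-!
# MP_e3a811_co, rows FPC, CYR, CFX
-/

set_option autoImplicit false
set_option linter.unusedSectionVars false

namespace Pool.Agent.H90.EH

open Finset

theorem dvd_card_of_period {X : Type} [DecidableEq X] (f : Equiv.Perm X) (n : ℕ) (hn : 0 < n) :
    ∀ (m : ℕ) (Y : Finset X), Y.card ≤ m → (∀ y ∈ Y, f y ∈ Y) →
      (∀ y ∈ Y, Function.minimalPeriod f y = n) → n ∣ Y.card := by
  intro m
  induction m with
  | zero =>
    intro Y hY _ _
    have : Y.card = 0 := by omega
    rw [this]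
    exact dvd_zero n
  | succ m ih =>
    intro Y hY hf hp
    rcases Y.eq_empty_or_nonempty with h | ⟨x, hx⟩
    · rw [h, card_empty]
      exact dvd_zero n
    · have hit : ∀ i, f^[i] x ∈ Y := by
        intro i
        induction i with
        | zero => exact hx
        | succ i ih' =>
          rw [Function.iterate_succ_apply']
          exact hf _ ih'
      have hcard : ((range n).image (fun i => f^[i] x)).card = n := by
        rw [card_image_of_injOn, card_range]
        intro i hi j hj hij
        have h1 := Function.iterate_injOn_Iio_minimalPeriod (f := f) (x := x)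
        rw [hp x hx] at h1
        exact h1 (mem_range.1 hi) (mem_range.1 hj) hij
      have hsub : (range n).image (fun i => f^[i] x) ⊆ Y := by
        intro y hy
        obtain ⟨i, -, rfl⟩ := mem_image.1 hy
        exact hit i
      have hrest : n ∣ (Y \ (range n).image (fun i => f^[i] x)).card := by
        refine ih _ ?_ ?_ ?_
        · rw [card_sdiff_of_subset hsub, hcard]
          omega
        · intro y hy
          rw [mem_sdiff] at hy ⊢
          refine ⟨hf y hy.1, fun h => hy.2 ?_⟩
          obtain ⟨i, hi, hi'⟩ := mem_image.1 h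
          rcases Nat.eq_zero_or_pos i with h0 | h0
          · subst h0
            refine mem_image.2 ⟨n - 1, mem_range.2 (by omega), ?_⟩
            apply f.injective
            show f (f^[n - 1] x) = f y
            rw [← Function.iterate_succ_apply' f, show (n - 1).succ = n by omega, ← hi']
            have := Function.isPeriodicPt_minimalPeriod f x
            rw [hp x hx] at this
            exact this
          · refine mem_image.2 ⟨i - 1, mem_range.2 (by have := mem_range.1 hi; omega), ?_⟩
            apply f.injective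
            show f (f^[i - 1] x) = f y
            rw [← Function.iterate_succ_apply' f, show (i - 1).succ = i by omega, ← hi']
        · intro y hy
          exact hp y (mem_sdiff.1 hy).1
      have : Y.card = (Y \ (range n).image (fun i => f^[i] x)).card + n := by
        rw [card_sdiff_of_subset hsub, hcard]
        have := card_le_card hsub
        rw [hcard] at this
        omega
      rw [this]
      exact dvd_add hrest dvd_rfl

theorem pf_FPC : T_FPC := by
  classical
  intro X _ f p s hp
  have := Fintype.ofFinite X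
  rw [Nat.card_eq_fintype_card, Nat.card_eq_fintype_card, Fintype.card_subtype,
    Fintype.card_subtype]
  have hAB : ∀ x, (f ^ p ^ s) x = x → (f ^ p ^ (s + 1)) x = x := by
    intro x hx
    rw [← Equiv.Perm.iterate_eq_pow] at hx ⊢
    have h1 : Function.IsPeriodicPt f (p ^ s) x := hx
    exact h1.trans_dvd (pow_dvd_pow p (Nat.le_succ s))
  have h1 := card_filter_add_card_filter_not
    (s := univ.filter (fun x => (f ^ p ^ (s + 1)) x = x)) (fun x => (f ^ p ^ s) x = x)
  have h2 : (univ.filter (fun x => (f ^ p ^ (s + 1)) x = x)).filter (fun x => (f ^ p ^ s) x = x)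
      = univ.filter (fun x => (f ^ p ^ s) x = x) := by
    ext x
    simp only [mem_filter, mem_univ, true_and]
    exact ⟨fun h => h.2, fun h => ⟨hAB x h, h⟩⟩
  rw [h2] at h1
  have h3 : p ^ (s + 1) ∣ ((univ.filter (fun x => (f ^ p ^ (s + 1)) x = x)).filter
      (fun x => ¬ (f ^ p ^ s) x = x)).card := by
    refine dvd_card_of_period f (p ^ (s + 1)) (pow_pos hp.pos _) _ _ le_rfl ?_ ?_
    · intro y hy
      simp only [mem_filter, mem_univ, true_and] at hy ⊢
      have hc : ∀ k : ℕ, (f ^ k) (f y) = f ((f ^ k) y) := by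
        intro k
        rw [← Equiv.Perm.mul_apply, ← Equiv.Perm.mul_apply, ← pow_succ, ← pow_succ']
      rw [hc, hc]
      exact ⟨congrArg f hy.1, fun h => hy.2 (f.injective h)⟩
    · intro y hy
      simp only [mem_filter, mem_univ, true_and] at hy
      have h4 : Function.IsPeriodicPt f (p ^ (s + 1)) y := by
        have := hy.1
        rw [← Equiv.Perm.iterate_eq_pow] at this
        exact this
      obtain ⟨j, hj, hj'⟩ := (Nat.dvd_prime_pow hp).1 h4.minimalPeriod_dvd
      rcases Nat.lt_or_ge s j with h5 | h5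
      · rw [hj', show j = s + 1 by omega]
      · exfalso
        apply hy.2
        rw [← Equiv.Perm.iterate_eq_pow]
        have h6 : Function.minimalPeriod f y ∣ p ^ s := by
          rw [hj']
          exact pow_dvd_pow p h5
        exact (Function.isPeriodicPt_iff_minimalPeriod_dvd.2 h6)
  have h7 : ((univ.filter (fun x => (f ^ p ^ (s + 1)) x = x)).card : ℤ) -
      (univ.filter (fun x => (f ^ p ^ s) x = x)).card =
      (((univ.filter (fun x => (f ^ p ^ (s + 1)) x = x)).filter
      (fun x => ¬ (f ^ p ^ s) x = x)).card : ℤ) := by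
    rw [← h1]
    push_cast
    ring
  rw [h7]
  exact_mod_cast h3

theorem reverse_pow' (f : Polynomial ℤ) (n : ℕ) : (f ^ n).reverse = f.reverse ^ n := by
  induction n with
  | zero =>
    rw [pow_zero, pow_zero]
    exact Polynomial.reverse_C 1
  | succ n ih => rw [pow_succ, pow_succ, Polynomial.reverse_mul_of_domain, ih]

theorem reverse_prod' {α : Type} (S : Finset α) (f : α → Polynomial ℤ) :
    (∏ a ∈ S, f a).reverse = ∏ a ∈ S, (f a).reverse := by
  classical
  induction S using Finset.induction_on with
  | empty =>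
    rw [prod_empty, prod_empty]
    exact Polynomial.reverse_C 1
  | insert a S ha ih => rw [prod_insert ha, prod_insert ha, Polynomial.reverse_mul_of_domain, ih]

theorem reflect_sum' {α : Type} (S : Finset α) (f : α → Polynomial ℤ) (N : ℕ) :
    Polynomial.reflect N (∑ a ∈ S, f a) = ∑ a ∈ S, Polynomial.reflect N (f a) := by
  classical
  induction S using Finset.induction_on with
  | empty =>
    rw [sum_empty, sum_empty]
    exact Polynomial.reflect_zero
  | insert a S ha ih => rw [sum_insert ha, sum_insert ha, Polynomial.reflect_add, ih]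

theorem reverse_cyc (p j : ℕ) (hp : p.Prime) :
    (Polynomial.cyclotomic (p ^ (j + 1)) ℤ).reverse = Polynomial.cyclotomic (p ^ (j + 1)) ℤ := by
  have h1 := Polynomial.cyclotomic_prime_pow_eq_geom_sum (R := ℤ) (n := j) hp
  have h2 : (Polynomial.cyclotomic (p ^ (j + 1)) ℤ).natDegree = p ^ j * (p - 1) := by
    rw [Polynomial.natDegree_cyclotomic, Nat.totient_prime_pow_succ hp]
  unfold Polynomial.reverse
  rw [h2, h1, reflect_sum']
  have h3 : ∀ i ∈ range p, Polynomial.reflect (p ^ j * (p - 1)) (((Polynomial.X : Polynomial ℤ) ^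
      p ^ j) ^ i) = (Polynomial.X ^ p ^ j) ^ (p - 1 - i) := by
    intro i hi
    have hi' := mem_range.1 hi
    rw [← pow_mul, Polynomial.reflect_monomial, Polynomial.revAt_le
      (Nat.mul_le_mul_left _ (show i ≤ p - 1 by omega)), ← pow_mul, ← Nat.mul_sub]
  rw [sum_congr rfl h3]
  exact Finset.sum_range_reflect (fun i => ((Polynomial.X : Polynomial ℤ) ^ p ^ j) ^ i) p

theorem pf_CYR : T_CYR := by
  intro ι _ _ N p r n s hp hs h
  rw [← Matrix.reverse_charpoly, h, Polynomial.reverse_mul_of_domain, reverse_pow']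
  congr 1
  · congr 1
    have h1 : (Polynomial.X - 1 : Polynomial ℤ).natDegree = 1 := by
      have := Polynomial.natDegree_X_sub_C (1 : ℤ)
      simpa using this
    unfold Polynomial.reverse
    rw [h1, Polynomial.reflect_sub, Polynomial.reflect_one_X, Polynomial.reflect_one, pow_one]
  · unfold Dp
    rw [reverse_prod']
    refine prod_congr rfl fun l hl => ?_
    rw [reverse_pow']
    congr 1
    have hl' := mem_Ioc.1 hl
    obtain ⟨j, hj⟩ : ∃ j, l - s = j + 1 := ⟨l - s - 1, by omega⟩
    rw [hj]
    exact reverse_cyc p j hp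

theorem cone_lc {d : ℕ} {S : Finset (Fin d → ℤ)} {y : Fin d ⊕ Unit → ℚ}
    (h : y ∈ Cone (gen S)) : 0 ≤ lc d y ∧ (lc d y = 0 → y = 0) := by
  obtain ⟨c, hc, hy⟩ := h
  have h1 : ∀ a ∈ gen S, lc d a = 1 := by
    intro a ha
    obtain ⟨x, -, rfl⟩ := mem_image.1 ha
    simp [lc, pt]
  have h2 : lc d y = ∑ a ∈ gen S, c a := by
    rw [hy, map_sum]
    refine sum_congr rfl fun a ha => ?_
    rw [map_smul, h1 a ha, smul_eq_mul, mul_one]
  rw [h2]
  refine ⟨sum_nonneg hc, fun h0 => ?_⟩
  have h3 := (sum_eq_zero_iff_of_nonneg hc).1 h0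
  rw [hy]
  refine sum_eq_zero fun a ha => ?_
  rw [h3 a ha, zero_smul]

theorem cone_zero_gen {d : ℕ} (S : Finset (Fin d → ℤ)) : (0 : Fin d ⊕ Unit → ℚ) ∈ Cone (gen S) :=
  ⟨fun _ => 0, fun _ _ => le_rfl, by simp⟩

theorem cone_smul_iff {d : ℕ} {S : Finset (Fin d → ℤ)} {y : Fin d ⊕ Unit → ℚ} {c : ℚ}
    (hc : 0 < c) : c • y ∈ Cone (gen S) ↔ y ∈ Cone (gen S) := by
  constructor
  · intro h
    have h1 := cone_smul h (inv_nonneg.2 hc.le)
    rwa [smul_smul, inv_mul_cancel₀ hc.ne', one_smul] at h1
  · intro h
    exact cone_smul h hc.le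

theorem pf_CFX (h1 : T_RQ) (h2 : T_ACT) (h3 : T_SCL) : T_CFX := by
  intro G _ d ρ g S T hST y
  rcases lt_or_ge 0 (lc d y) with hy | hy
  · obtain ⟨c, x, m, hc, hm, hcy⟩ := h3 d y hy
    have h4 : Lm (ρ.hom g) y = y ↔ Lm (ρ.hom g) (c • y) = c • y := by
      rw [map_smul]
      exact (smul_right_injective _ hc.ne').eq_iff.symm
    rw [← cone_smul_iff (S := T) hc, ← cone_smul_iff (S := S) hc, h4, hcy, ← h1 d T x m hm,
      ← h1 d S x m hm, ← h2 G d ρ g x m hm, ← hST]
    exact Iff.rfl
  · constructor
    · intro h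
      obtain ⟨h5, h6⟩ := cone_lc h
      have h7 := h6 (le_antisymm hy h5)
      rw [h7]
      exact ⟨cone_zero_gen S, map_zero _⟩
    · rintro ⟨h, -⟩
      obtain ⟨h5, h6⟩ := cone_lc h
      have h7 := h6 (le_antisymm hy h5)
      rw [h7]
      exact cone_zero_gen T

end Pool.Agent.H90.EH
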