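import Pool.Agent.H90.EH.Targets
import Pool.Agent.H1.EH.KIG
import Pool.Agent.H12.EH.LFT
import Pool.Agent.H16.EH.POS
import Pool.Agent.H17.EH.GW0
import Pool.Agent.H17.EH.SEL
import Pool.Agent.H18.HST.AB1
import Pool.Agent.H18.HST.AB2
import Pool.Agent.H20.EH.EPS
import Pool.Agent.H20.EH.HOE
import Pool.Agent.H20.EH.INJ
import Pool.Agent.H21.EH.PIN
import Pool.Agent.H23.EH.CYF
import Pool.Agent.H33.EH.CPW
import Pool.Agent.H33.EH.CYK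
import Pool.Agent.H33.EH.PIV
import Pool.Agent.H34.EH.GBC
import Pool.Agent.H35.EH.FIN
import Pool.Agent.H47.EH.RQ
import Pool.Agent.H47.EH.SCL
import Pool.Agent.H47.EH.TOP
import Pool.Agent.H49.EH.SGN
import Pool.Agent.H50.EH.LPE
import Pool.Agent.H51.EH.STP
import Pool.Agent.H54.EH.LFZ
import Pool.Agent.H56.EH.CIN
import Pool.Agent.H56.EH.PHK
import Pool.Agent.H59.EH.COE
import Pool.Agent.H6.EH.HOU
import Pool.Agent.H60.EH.EFF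
import Pool.Agent.H65.EH.BOX
import Pool.Agent.H67.EH.FIX
import Pool.Agent.H68.EH.CIV
import Pool.Agent.H68.EH.HOM
import Pool.Agent.H68.EH.NUM
import Pool.Agent.H69.EH.CYD
import Pool.Agent.H70.EH.GQ0
import Pool.Agent.H74.EH.HSC
import Pool.Agent.H74.EH.LPU
import Pool.Agent.H85.EH.CYP
import Pool.Agent.H85.EH.SUM
import Pool.Agent.H86.HST.AB3
import Pool.Agent.H86.HST.ACT
import Pool.Agent.H86.HST.CNG
import Pool.Agent.H86.HST.CYC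
import Pool.Agent.H87.EH.CRD
import Pool.Agent.H87.EH.DIR
import Pool.Agent.H87.EH.GDT
import Pool.Agent.H90.EH.Last
import Pool.Agent.H91.EH.HTS
import Pool.Agent.H92.EH.CAR
import Pool.Agent.H92.EH.EXT
import Pool.Agent.H94.EH.GBI
import Pool.Agent.H94.EH.KI
import Pool.Agent.H94.EH.RKO

/-!
# MP_e3a811_co: assembly of the proof for cyclic groups of prime power order
-/

set_option autoImplicit false

namespace Pool.Agent.H90.EH.All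

open Pool.Agent.H90.EH

theorem qCYF : T_CYF := Pool.Agent.H23.EH.pf_CYF
theorem qCPW : T_CPW := Pool.Agent.H33.EH.pf_CPW
theorem qCYP : T_CYP := Pool.Agent.H85.EH.CYP.pf_CYP qCPW
theorem qCYR : T_CYR := Pool.Agent.H90.EH.pf_CYR
theorem qCYD : T_CYD := Pool.Agent.H69.EH.pf_CYD0
theorem qCYC : T_CYC := Pool.Agent.H86.HST.pf_CYC qCYF qCYP qCYR qCYD
theorem qPIN : T_PIN := Pool.Agent.H21.EH.pf_PIN
theorem qGW0 : T_GW0 := Pool.Agent.H17.EH.pf_GW0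
theorem qGQ0 : T_GQ0 := Pool.Agent.H70.EH.GQ0.pf_GQ0
theorem qCAR : T_CAR := Pool.Agent.H92.EH.CAR.pf_CAR
theorem qEXT : T_EXT := Pool.Agent.H92.EH.EXT.pf_EXT
theorem qCOE : T_COE := Pool.Agent.H59.EH.pf_COE
theorem qPIV : T_PIV := Pool.Agent.H33.EH.pf_PIV
theorem qLPE : T_LPE := Pool.Agent.H50.EH.pf_LPE qCAR qEXT qCOE qPIV
theorem qEPS : T_EPS := Pool.Agent.H20.EH.EPS.pf_EPS
theorem qSGN : T_SGN := Pool.Agent.H49.EH.SGN.pf_SGN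
theorem qHOE : T_HOE := Pool.Agent.H20.EH.HOE.pf_HOE qLPE qEPS qSGN
theorem qLPU : T_LPU := Pool.Agent.H74.EH.LPU.pf_LPU
theorem qHOU : T_HOU := Pool.Agent.H6.EH.pf_HOU qLPU qSGN
theorem qSTP : T_STP := Pool.Agent.H51.EH.pf_STP
theorem qBOX : T_BOX := Pool.Agent.H65.EH.pf_BOX qSTP
theorem qCRD : T_CRD := Pool.Agent.H87.EH.pf_CRD
theorem qSUM : T_SUM := Pool.Agent.H85.EH.pf_SUM qHOE qHOU qBOX qCRD
theorem qPOS : T_POS := Pool.Agent.H16.EH.pf_POS qGW0 qGQ0 qSUM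
theorem qFIX : T_FIX := Pool.Agent.H67.EH.pf_FIX
theorem qAB1 : T_AB1 := Pool.Agent.H18.HST.pf_AB1 qCYC qPIN qPOS qFIX
theorem qSEL : T_SEL := Pool.Agent.H17.EH.pf_SEL
theorem qHSC : T_HSC := Pool.Agent.H74.EH.HSC.pf_HSC
theorem qLFT : T_LFT := Pool.Agent.H12.EH.pf_LFT
theorem qHTS : T_HTS := Pool.Agent.H91.EH.pf_HTS qGW0 qLFT qEXT qCOE
theorem qINJ : T_INJ := Pool.Agent.H20.EH.INJ.pf_INJ
theorem qGBI : T_GBI := Pool.Agent.H94.EH.pf_GBI qINJ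
theorem qGBC : T_GBC := Pool.Agent.H34.EH.pf_GBC qINJ qGBI
theorem qGDT : T_GDT := Pool.Agent.H87.EH.pf_GDT qHTS qINJ qGBI qGBC
theorem qDIR : T_DIR := Pool.Agent.H87.EH.pf_DIR qGQ0 qEPS qEXT qGBI qGBC
theorem qCIN : T_CIN := Pool.Agent.H56.EH.pf_CIN qGBC qGBI qINJ
theorem qPHK : T_PHK := Pool.Agent.H56.EH.pf_PHK
theorem qKI : T_KI := Pool.Agent.H94.EH.pf_KI qGDT qDIR qSUM qCIN qPHK qINJ
theorem qRKO : T_RKO := Pool.Agent.H94.EH.pf_RKO qINJ qGBI qEXT qCRD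
theorem qKIG : T_KIG := Pool.Agent.H1.EH.pf_KIG qSEL qFIX qHSC qKI qRKO
theorem qAB2 : T_AB2 := Pool.Agent.H18.HST.pf_AB2 qCYC qPIN qPOS qFIX qKIG
theorem qCNG : T_CNG := Pool.Agent.H86.HST.pf_CNG
theorem qFPC : T_FPC := Pool.Agent.H90.EH.pf_FPC
theorem qAB3 : T_AB3 := Pool.Agent.H86.HST.pf_AB3 qCYC qCNG qFPC
theorem qCYK : T_CYK := Pool.Agent.H33.EH.pf_CYK qCPW qCYF
theorem qEFF : T_EFF := Pool.Agent.H60.EH.pf_EFF
theorem qHOM : T_HOM := Pool.Agent.H68.EH.pf_HOM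
theorem qLFZ : T_LFZ := Pool.Agent.H54.EH.pf_LFZ
theorem qTOP : T_TOP := Pool.Agent.H47.EH.pf_TOP
theorem qRQ : T_RQ := Pool.Agent.H47.EH.pf_RQ
theorem qACT : T_ACT := Pool.Agent.H86.HST.pf_ACT
theorem qSCL : T_SCL := Pool.Agent.H47.EH.pf_SCL
theorem qCFX : T_CFX := Pool.Agent.H90.EH.pf_CFX qRQ qACT qSCL
theorem qCIV : T_CIV := Pool.Agent.H68.EH.pf_CIV qRQ
theorem qNUM : T_NUM := Pool.Agent.H68.EH.pf_NUM qRQ qACT
theorem qFIN : T_FIN := Pool.Agent.H35.EH.FIN.pf_FIN qAB1 qAB2 qAB3 qCYK qEFF qHOM qLFZ qTOP qCFX qCIV qNUM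

end Pool.Agent.H90.EH.All
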