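import Pool.Agent.H90.EH.Stmt

/-!
# Equivariant Ehrhart theory for cyclic groups of prime power order (MP_e3a811_co): tools

Cones over finite sets of rational vectors.
-/

set_option autoImplicit false
set_option linter.unusedSectionVars false

namespace Pool.Agent.H90.EH

open Finset
open scoped Classical

section Gen

variable {V : Type} [AddCommGroup V] [Module ℚ V]

/-- the cone over `A` -/
def Cone (A : Finset V) : Set V :=
  {x | ∃ c : V → ℚ, (∀ a ∈ A, 0 ≤ c a) ∧ x = ∑ a ∈ A, c a • a}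

/-- the span of `A` -/
def Sp (A : Finset V) : Submodule ℚ V := Submodule.span ℚ (A : Set V)

/-- `B` is linearly independent -/
def Ind (B : Finset V) : Prop := ∀ c : V → ℚ, ∑ b ∈ B, c b • b = 0 → ∀ b ∈ B, c b = 0

/-- `B` is a basis of the span of `A`, contained in `A` -/
def IsB (A B : Finset V) : Prop := B ⊆ A ∧ Ind B ∧ ∀ a ∈ A, a ∈ Sp B

/-- coordinates of `x` with respect to `B` -/
noncomputable def co (B : Finset V) (x : V) : V → ℚ :=
  if h : ∃ c : V → ℚ, x = ∑ b ∈ B, c b • b then h.choose else 0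

/-- the bases with positive reduced costs for the heights `w` -/
noncomputable def Tri (A : Finset V) (w : V → ℚ) : Finset (Finset V) :=
  A.powerset.filter (fun B => IsB A B ∧ ∀ a ∈ A, a ∉ B → ∑ b ∈ B, co B a b * w b < w a)

/-- the heights `w` are generic -/
def GW (A : Finset V) (w : V → ℚ) : Prop :=
  ∀ B, IsB A B → ∀ a ∈ A, a ∉ B → ∑ b ∈ B, co B a b * w b ≠ w a

/-- the vector `q` is generic -/
def GQ (A : Finset V) (q : V) : Prop := q ∈ Sp A ∧ ∀ B, IsB A B → ∀ b ∈ B, co B q b ≠ 0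

/-- the half-open cone over `B` with respect to the direction `q` -/
def HO (B : Finset V) (q : V) : Set V :=
  {y | y ∈ Sp B ∧ ∀ b ∈ B, 0 < co B y b ∨ (co B y b = 0 ∧ 0 < co B q b)}

/-- the half-open box over `B` with respect to the direction `q` -/
def Bx (B : Finset V) (q : V) : Set V :=
  {y | y ∈ Sp B ∧ ∀ b ∈ B, (0 < co B q b → 0 ≤ co B y b ∧ co B y b < 1) ∧
    (co B q b < 0 → 0 < co B y b ∧ co B y b ≤ 1)}

/-- the number of elements of height `m` of `S ∩ Λ` -/
noncomputable def cnt (Λ : AddSubgroup V) (ht : V →ₗ[ℚ] ℚ) (S : Set V) (m : ℕ) : ℕ :=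
  Set.ncard {x | x ∈ S ∧ x ∈ Λ ∧ ht x = (m : ℚ)}

/-- the generating function of `S ∩ Λ` -/
noncomputable def ser (Λ : AddSubgroup V) (ht : V →ₗ[ℚ] ℚ) (S : Set V) : PowerSeries ℤ :=
  PowerSeries.mk fun m => (cnt Λ ht S m : ℤ)

/-- the elements of `A` are lattice vectors of height one, and the cone over `A` has finitely many
lattice vectors of each height -/
def LF (Λ : AddSubgroup V) (ht : V →ₗ[ℚ] ℚ) (A : Finset V) : Prop :=
  (∀ a ∈ A, a ∈ Λ ∧ ht a = 1) ∧ ∀ m : ℕ, {x | x ∈ Cone A ∧ x ∈ Λ ∧ ht x = (m : ℚ)}.Finite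

/-- the rank of `A` -/
noncomputable def rk (A : Finset V) : ℕ := Module.finrank ℚ (Sp A)

/-- the `h*`-series of the cone over `A` -/
noncomputable def hs (Λ : AddSubgroup V) (ht : V →ₗ[ℚ] ℚ) (A : Finset V) : PowerSeries ℤ :=
  (1 - PowerSeries.X) ^ rk A * ser Λ ht (Cone A)

/-- coefficientwise order of power series -/
def Le (f g : PowerSeries ℤ) : Prop := ∀ m, PowerSeries.coeff m f ≤ PowerSeries.coeff m g

/-- `1 + X + ... + X^(p-1)` -/
noncomputable def Ph (p : ℕ) : PowerSeries ℤ := ∑ i ∈ range p, PowerSeries.X ^ i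

/-- The data of the main inequality: `AF ⊆ A`, and `k` blocks `v j 0, ..., v j (p-1)` of elements of
`A` whose sums lie in the cone over `AF`; modulo the span of `AF` these are the only relations
between the `v j i`, and together with `AF` they span `A`. -/
structure Orb (A AF : Finset V) (k p : ℕ) (v : Fin k → Fin p → V) : Prop where
  sub : AF ⊆ A
  mem : ∀ j i, v j i ∈ A
  sum : ∀ j, ∑ i, v j i ∈ Cone AF
  ind : ∀ e : Fin k → Fin p → ℚ, ∑ j, ∑ i, e j i • v j i ∈ Sp AF → ∀ j i i', e j i = e j i'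
  span : ∀ a ∈ A, ∃ e : Fin k → Fin p → ℚ, a - ∑ j, ∑ i, e j i • v j i ∈ Sp AF

/-- the good basis: `BF` and all `v j i'` with `i' ≠ i j` -/
noncomputable def GB (BF : Finset V) {k p : ℕ} (v : Fin k → Fin p → V) (i : Fin k → Fin p) :
    Finset V :=
  BF ∪ (univ.filter (fun x : Fin k × Fin p => x.2 ≠ i x.1)).image (fun x => v x.1 x.2)

/-! #### Basic lemmas -/

theorem mem_Sp {A : Finset V} {x : V} : x ∈ Sp A ↔ ∃ c : V → ℚ, x = ∑ a ∈ A, c a • a := by
  constructor
  · intro h
    unfold Sp at h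
    rw [Submodule.mem_span_finset] at h
    obtain ⟨c, -, hc⟩ := h
    exact ⟨c, hc.symm⟩
  · rintro ⟨c, rfl⟩
    exact Submodule.sum_mem _ fun a ha => Submodule.smul_mem _ _ (Submodule.subset_span ha)

theorem sub_Sp {A : Finset V} {a : V} (h : a ∈ A) : a ∈ Sp A := Submodule.subset_span h

theorem Sp_mono {A B : Finset V} (h : A ⊆ B) : Sp A ≤ Sp B := Submodule.span_mono h

theorem Sp_le {A B : Finset V} (h : ∀ a ∈ A, a ∈ Sp B) : Sp A ≤ Sp B :=
  Submodule.span_le.2 fun a ha => h a ha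

theorem IsB.sp {A B : Finset V} (h : IsB A B) : Sp A = Sp B :=
  le_antisymm (Sp_le h.2.2) (Sp_mono h.1)

theorem co_spec {B : Finset V} {x : V} (h : x ∈ Sp B) : x = ∑ b ∈ B, co B x b • b := by
  have h' := mem_Sp.1 h
  unfold co
  rw [dif_pos h']
  exact h'.choose_spec

theorem co_unique {B : Finset V} (hB : Ind B) {x : V} {c : V → ℚ} (h : x = ∑ b ∈ B, c b • b)
    {b : V} (hb : b ∈ B) : co B x b = c b := by
  have h1 := co_spec (mem_Sp.2 ⟨c, h⟩)
  have h2 : ∑ b ∈ B, (co B x b - c b) • b = 0 := by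
    simp only [sub_smul, sum_sub_distrib]
    rw [← h1, ← h, sub_self]
  have := hB (fun b => co B x b - c b) h2 b hb
  linarith

theorem co_add {B : Finset V} (hB : Ind B) {x y : V} (hx : x ∈ Sp B) (hy : y ∈ Sp B) {b : V}
    (hb : b ∈ B) : co B (x + y) b = co B x b + co B y b := by
  apply co_unique hB (c := fun b => co B x b + co B y b) _ hb
  simp only [add_smul, sum_add_distrib]
  rw [← co_spec hx, ← co_spec hy]

theorem co_smul {B : Finset V} (hB : Ind B) {x : V} (hx : x ∈ Sp B) (r : ℚ) {b : V}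
    (hb : b ∈ B) : co B (r • x) b = r * co B x b := by
  apply co_unique hB (c := fun b => r * co B x b) _ hb
  simp only [mul_smul]
  rw [← smul_sum, ← co_spec hx]

theorem co_sub {B : Finset V} (hB : Ind B) {x y : V} (hx : x ∈ Sp B) (hy : y ∈ Sp B) {b : V}
    (hb : b ∈ B) : co B (x - y) b = co B x b - co B y b := by
  apply co_unique hB (c := fun b => co B x b - co B y b) _ hb
  simp only [sub_smul, sum_sub_distrib]
  rw [← co_spec hx, ← co_spec hy]

theorem co_self {B : Finset V} (hB : Ind B) {a b : V} (ha : a ∈ B) (hb : b ∈ B) :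
    co B a b = if b = a then 1 else 0 := by
  apply co_unique hB (c := fun b => if b = a then 1 else 0) _ hb
  simp [ha]

theorem cone_sp {A : Finset V} {x : V} (h : x ∈ Cone A) : x ∈ Sp A := by
  obtain ⟨c, -, h⟩ := h
  exact mem_Sp.2 ⟨c, h⟩

theorem cone_add {A : Finset V} {x y : V} (hx : x ∈ Cone A) (hy : y ∈ Cone A) :
    x + y ∈ Cone A := by
  obtain ⟨c, hc, rfl⟩ := hx
  obtain ⟨e, he, rfl⟩ := hy
  refine ⟨fun a => c a + e a, fun a ha => add_nonneg (hc a ha) (he a ha), ?_⟩
  simp only [add_smul, sum_add_distrib]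

theorem cone_smul {A : Finset V} {x : V} (hx : x ∈ Cone A) {r : ℚ} (hr : 0 ≤ r) :
    r • x ∈ Cone A := by
  obtain ⟨c, hc, rfl⟩ := hx
  refine ⟨fun a => r * c a, fun a ha => mul_nonneg hr (hc a ha), ?_⟩
  simp only [mul_smul]
  rw [smul_sum]

theorem cone_mem {A : Finset V} {a : V} (ha : a ∈ A) : a ∈ Cone A := by
  refine ⟨fun b => if b = a then 1 else 0, fun b _ => by dsimp only; split_ifs <;> norm_num, ?_⟩
  simp [ha]

theorem cone_zero (A : Finset V) : (0 : V) ∈ Cone A := ⟨fun _ => 0, by simp, by simp⟩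

theorem cone_mono {A B : Finset V} (h : ∀ a ∈ A, a ∈ Cone B) : Cone A ⊆ Cone B := by
  rintro x ⟨c, hc, rfl⟩
  have : ∀ s : Finset V, s ⊆ A → ∑ a ∈ s, c a • a ∈ Cone B := by
    intro s
    induction s using Finset.induction_on with
    | empty => intro _; simpa using cone_zero B
    | insert a s ha ih =>
      intro hs
      rw [sum_insert ha]
      exact cone_add (cone_smul (h a (hs (mem_insert_self a s))) (hc a (hs (mem_insert_self a s))))
        (ih fun b hb => hs (mem_insert_of_mem hb))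
  exact this A (Subset.refl A)

end Gen

end Pool.Agent.H90.EH
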