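import Mathlib

/-!
# Equivariant Ehrhart theory for cyclic groups of prime power order (MP_e3a811_co)

The objects of the statement: affine actions of a group on a lattice, lattice polytopes, and the
equivariant `h*`-series.
-/

set_option autoImplicit false

namespace Pool.Agent.H90.EH

/-- An action of `G` on the lattice `ℤ^d` by affine transformations `u ↦ lin g u + tr g`. -/
structure AffAct (G : Type) [Group G] (d : ℕ) where
  lin : G →* Matrix (Fin d) (Fin d) ℤ
  tr : G → Fin d → ℤ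
  tr_mul : ∀ g h, tr (g * h) = (lin g).mulVec (tr h) + tr g

/-- The affine transformation of `ℝ^d` given by `g`. -/
noncomputable def AffAct.act {G : Type} [Group G] {d : ℕ} (ρ : AffAct G d) (g : G)
    (x : Fin d → ℝ) : Fin d → ℝ :=
  ((ρ.lin g).map (fun z : ℤ => (z : ℝ))).mulVec x + fun i => (ρ.tr g i : ℝ)

/-- `P` is a lattice polytope: the convex hull of finitely many points of `ℤ^d`. -/
def IsLatPoly {d : ℕ} (P : Set (Fin d → ℝ)) : Prop :=
  ∃ S : Finset (Fin d → ℤ), P = convexHull ℝ ((fun (v : Fin d → ℤ) (i : Fin d) => (v i : ℝ)) ''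
    (S : Set (Fin d → ℤ)))

/-- For `m ≥ 1` the number of points of `P ∩ (1/m)ℤ^d` that are fixed by `g` (the value at `g` of
the character of the permutation representation); `1` for `m = 0`. -/
noncomputable def AffAct.num {G : Type} [Group G] {d : ℕ} (ρ : AffAct G d)
    (P : Set (Fin d → ℝ)) (g : G) (m : ℕ) : ℕ :=
  if m = 0 then 1 else Nat.card {x : Fin d → ℤ // (fun i => (x i : ℝ) / (m : ℝ)) ∈ P ∧
    ρ.act g (fun i => (x i : ℝ) / (m : ℝ)) = fun i => (x i : ℝ) / (m : ℝ)}

/-- The matrix of `g` on `ℤ^d ⊕ ℤ`. -/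
def AffAct.hom {G : Type} [Group G] {d : ℕ} (ρ : AffAct G d) (g : G) :
    Matrix (Fin d ⊕ Unit) (Fin d ⊕ Unit) ℤ :=
  Matrix.fromBlocks (ρ.lin g) (Matrix.of fun i _ => ρ.tr g i) 0 1

/-- The value at `g` of the equivariant `h*`-series:
`(1 + ∑_{m > 0} L(P, ρ; m)(g) t^m) det(I - g t)`. -/
noncomputable def AffAct.hstar {G : Type} [Group G] {d : ℕ} (ρ : AffAct G d)
    (P : Set (Fin d → ℝ)) (g : G) : PowerSeries ℤ :=
  PowerSeries.mk (fun m => (ρ.num P g m : ℤ)) * ((ρ.hom g).charpolyRev : PowerSeries ℤ)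

end Pool.Agent.H90.EH
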