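import Pool.Agent.H90.EH.Defs

/-! Targets of the modules (MP_e3a811_co). -/

set_option autoImplicit false
set_option linter.unusedSectionVars false

namespace Pool.Agent.H90.EH

open Finset
open scoped Classical

/-! ### A. Linear algebra and linear programming -/

/-- CAR: Caratheodory for cones -/
def T_CAR : Prop := ∀ (V : Type) [AddCommGroup V] [Module ℚ V] (A : Finset V) (z : V),
  z ∈ Cone A → ∃ B, B ⊆ A ∧ Ind B ∧ z ∈ Cone B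

/-- EXT: extension to a basis -/
def T_EXT : Prop := ∀ (V : Type) [AddCommGroup V] [Module ℚ V] (A B : Finset V),
  B ⊆ A → Ind B → ∃ B', B ⊆ B' ∧ IsB A B'

/-- CRD: bases have rk A elements -/
def T_CRD : Prop := ∀ (V : Type) [AddCommGroup V] [Module ℚ V] (A B : Finset V),
  IsB A B → B.card = rk A

/-- COE: coordinates in a larger independent set -/
def T_COE : Prop := ∀ (V : Type) [AddCommGroup V] [Module ℚ V] (B B' : Finset V) (x : V),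
  B ⊆ B' → Ind B' → x ∈ Sp B →
    (∀ b ∈ B, co B' x b = co B x b) ∧ ∀ b ∈ B', b ∉ B → co B' x b = 0

/-- PIV: exchange of b₀ by a -/
def T_PIV : Prop := ∀ (V : Type) [AddCommGroup V] [Module ℚ V] (A B : Finset V) (a b₀ : V),
  IsB A B → a ∈ A → a ∉ B → b₀ ∈ B → co B a b₀ ≠ 0 →
    IsB A (insert a (B.erase b₀)) ∧ ∀ z ∈ Sp A,
      co (insert a (B.erase b₀)) z a = co B z b₀ / co B a b₀ ∧
      ∀ b ∈ B, b ≠ b₀ →
        co (insert a (B.erase b₀)) z b = co B z b - co B z b₀ / co B a b₀ * co B a b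

/-- LPE: existence of the optimal basis -/
def T_LPE : Prop := ∀ (V : Type) [AddCommGroup V] [Module ℚ V] (A : Finset V) (w : V → ℚ)
  (ht : V →ₗ[ℚ] ℚ) (z : V), (∀ a ∈ A, ht a = 1) → GW A w → z ∈ Cone A → GQ A z →
    ∃ B ∈ Tri A w, ∀ b ∈ B, 0 < co B z b

/-- LPU: uniqueness of the optimal basis -/
def T_LPU : Prop := ∀ (V : Type) [AddCommGroup V] [Module ℚ V] (A : Finset V) (w : V → ℚ)
  (z : V) (B B' : Finset V), z ∈ Sp A → B ∈ Tri A w → B' ∈ Tri A w → (∀ b ∈ B, 0 < co B z b) →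
    (∀ b ∈ B', 0 < co B' z b) → B = B'

/-- EPS: small perturbations are generic -/
def T_EPS : Prop := ∀ (V : Type) [AddCommGroup V] [Module ℚ V] (A : Finset V) (y q : V),
  y ∈ Sp A → GQ A q → ∃ ε₀ : ℚ, 0 < ε₀ ∧ ∀ ε : ℚ, 0 < ε → ε < ε₀ → GQ A (y + ε • q)

/-- SGN: positivity of the coordinates of small perturbations -/
def T_SGN : Prop := ∀ (V : Type) [AddCommGroup V] [Module ℚ V] (A : Finset V) (y q : V),
  y ∈ Sp A → GQ A q → ∃ ε₀ : ℚ, 0 < ε₀ ∧ ∀ ε : ℚ, 0 < ε → ε < ε₀ → ∀ B, IsB A B →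
    ((∀ b ∈ B, 0 < co B (y + ε • q) b) ↔ y ∈ HO B q)

/-- HOE: the cone is the union of the half-open cones -/
def T_HOE : Prop := ∀ (V : Type) [AddCommGroup V] [Module ℚ V] (A : Finset V) (w : V → ℚ)
  (ht : V →ₗ[ℚ] ℚ) (q : V), (∀ a ∈ A, ht a = 1) → GW A w → q ∈ Cone A → GQ A q →
    ∀ y, y ∈ Cone A ↔ ∃ B ∈ Tri A w, y ∈ HO B q

/-- HOU: the half-open cones are disjoint -/
def T_HOU : Prop := ∀ (V : Type) [AddCommGroup V] [Module ℚ V] (A : Finset V) (w : V → ℚ)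
  (q y : V) (B B' : Finset V), GQ A q → B ∈ Tri A w → B' ∈ Tri A w → y ∈ HO B q →
    y ∈ HO B' q → B = B'

/-- STP: removing one generator -/
def T_STP : Prop := ∀ (V : Type) [AddCommGroup V] [Module ℚ V] (Λ : AddSubgroup V)
  (ht : V →ₗ[ℚ] ℚ) (S : Set V) (b : V), b ∈ Λ → ht b = 1 → (∀ x ∈ S, 0 ≤ ht x) →
  (∀ x ∈ S, x + b ∈ S) → (∀ m : ℕ, {x | x ∈ S ∧ x ∈ Λ ∧ ht x = (m : ℚ)}.Finite) →
    (1 - PowerSeries.X) * ser Λ ht S = ser Λ ht {x | x ∈ S ∧ x - b ∉ S}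

/-- BOX: the series of a half-open cone -/
def T_BOX : Prop := ∀ (V : Type) [AddCommGroup V] [Module ℚ V] (Λ : AddSubgroup V)
  (ht : V →ₗ[ℚ] ℚ) (B : Finset V) (q : V), Ind B → (∀ b ∈ B, b ∈ Λ ∧ ht b = 1) → q ∈ Sp B →
  (∀ b ∈ B, co B q b ≠ 0) → (∀ m : ℕ, {x | x ∈ HO B q ∧ x ∈ Λ ∧ ht x = (m : ℚ)}.Finite) →
    (1 - PowerSeries.X) ^ B.card * ser Λ ht (HO B q) = ser Λ ht (Bx B q)

/-- SUM: the h*-series is the sum over the boxes -/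
def T_SUM : Prop := ∀ (V : Type) [AddCommGroup V] [Module ℚ V] (Λ : AddSubgroup V)
  (ht : V →ₗ[ℚ] ℚ) (A : Finset V) (w : V → ℚ) (q : V), LF Λ ht A → GW A w → q ∈ Cone A →
    GQ A q → hs Λ ht A = ∑ B ∈ Tri A w, ser Λ ht (Bx B q)

/-! ### B. Generic heights and directions -/

/-- GW0: generic heights exist -/
def T_GW0 : Prop := ∀ (V : Type) [AddCommGroup V] [Module ℚ V] (A : Finset V),
  ∃ w : V → ℚ, GW A w

/-- GQ0: generic directions with positive coefficients exist -/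
def T_GQ0 : Prop := ∀ (V : Type) [AddCommGroup V] [Module ℚ V] (A : Finset V),
  ∃ c : V → ℚ, (∀ a ∈ A, 0 < c a) ∧ GQ A (∑ a ∈ A, c a • a)

/-- LFT: lifting the elements outside A' -/
def T_LFT : Prop := ∀ (V : Type) [AddCommGroup V] [Module ℚ V] (A A' : Finset V) (w : V → ℚ),
  A' ⊆ A → GW A w → ∃ M₀ : ℚ, ∀ M : ℚ, M₀ ≤ M →
    GW A (fun a => if a ∈ A' then w a else w a + M) ∧
    ∀ B, B ⊆ A' → Ind B → ∀ a ∈ A, a ∉ A' → a ∈ Sp B → ∑ b ∈ B, co B a b * w b < w a + M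

/-- HTS: heights in three levels -/
def T_HTS : Prop := ∀ (V : Type) [AddCommGroup V] [Module ℚ V] (A AF A₁ : Finset V),
  AF ⊆ A₁ → A₁ ⊆ A → ∃ w₀ : V → ℚ, GW AF w₀ ∧ ∀ C : ℚ, ∃ w : V → ℚ, GW A w ∧
    (∀ a ∈ AF, w a = w₀ a) ∧ (∀ a ∈ A₁, a ∉ AF → C ≤ w a) ∧
    ∀ B, B ⊆ A₁ → Ind B → ∀ a ∈ A, a ∉ A₁ → a ∈ Sp B → ∑ b ∈ B, co B a b * w b < w a

/-! ### C. The main inequality -/

/-- INJ: the vectors of the blocks are different and not in the span of AF -/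
def T_INJ : Prop := ∀ (V : Type) [AddCommGroup V] [Module ℚ V] (A AF : Finset V) (k p : ℕ)
  (v : Fin k → Fin p → V), 2 ≤ p → Orb A AF k p v →
    (∀ j i j' i', v j i = v j' i' → j = j' ∧ i = i') ∧ ∀ j i, v j i ∉ Sp AF

/-- GBI: the good bases are bases -/
def T_GBI : Prop := ∀ (V : Type) [AddCommGroup V] [Module ℚ V] (A AF BF : Finset V) (k p : ℕ)
  (v : Fin k → Fin p → V) (i : Fin k → Fin p), 2 ≤ p → Orb A AF k p v → IsB AF BF →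
    IsB A (GB BF v i)

/-- GBC: coordinates in the good bases -/
def T_GBC : Prop := ∀ (V : Type) [AddCommGroup V] [Module ℚ V] (A AF BF : Finset V) (k p : ℕ)
  (v : Fin k → Fin p → V) (i : Fin k → Fin p) (e : Fin k → Fin p → ℚ) (xF : V), 2 ≤ p →
  Orb A AF k p v → IsB AF BF → xF ∈ Sp AF →
    (∀ j i', i' ≠ i j → co (GB BF v i) (xF + ∑ j, ∑ i', e j i' • v j i') (v j i') =
      e j i' - e j (i j)) ∧
    ∀ b ∈ BF, co (GB BF v i) (xF + ∑ j, ∑ i', e j i' • v j i') b =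
      co BF (xF + ∑ j, e j (i j) • ∑ i', v j i') b

/-- RKO: the rank -/
def T_RKO : Prop := ∀ (V : Type) [AddCommGroup V] [Module ℚ V] (A AF : Finset V) (k p : ℕ)
  (v : Fin k → Fin p → V), 2 ≤ p → Orb A AF k p v → rk A = rk AF + k * (p - 1)

/-- GDT: for suitable heights all good bases are optimal -/
def T_GDT : Prop := ∀ (V : Type) [AddCommGroup V] [Module ℚ V] (A AF : Finset V) (k p : ℕ)
  (v : Fin k → Fin p → V), 2 ≤ p → Orb A AF k p v → ∃ w₀ w : V → ℚ, GW AF w₀ ∧ GW A w ∧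
    ∀ BF ∈ Tri AF w₀, ∀ i : Fin k → Fin p, GB BF v i ∈ Tri A w

/-- the signs of the direction q in the good bases -/
def Dir {V : Type} [AddCommGroup V] [Module ℚ V] (AF : Finset V) {k p : ℕ}
    (v : Fin k → Fin p → V) (qF q : V) (e : Fin k → Fin p → ℚ) : Prop :=
  (∀ j, Function.Injective (e j)) ∧ ∀ BF, IsB AF BF → ∀ i : Fin k → Fin p,
    (∀ b ∈ BF, (0 < co (GB BF v i) q b ↔ 0 < co BF qF b)) ∧
    ∀ j i', i' ≠ i j → (0 < co (GB BF v i) q (v j i') ↔ e j (i j) < e j i')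

/-- DIR: suitable directions -/
def T_DIR : Prop := ∀ (V : Type) [AddCommGroup V] [Module ℚ V] (A AF : Finset V) (k p : ℕ)
  (v : Fin k → Fin p → V), 2 ≤ p → Orb A AF k p v →
    ∃ (qF q : V) (e : Fin k → Fin p → ℚ), qF ∈ Cone AF ∧ GQ AF qF ∧ q ∈ Cone A ∧ GQ A q ∧
      Dir AF v qF q e

/-- CIN: comparison of the boxes -/
def T_CIN : Prop := ∀ (V : Type) [AddCommGroup V] [Module ℚ V] (Λ : AddSubgroup V)
  (ht : V →ₗ[ℚ] ℚ) (A AF BF : Finset V) (k p : ℕ) (v : Fin k → Fin p → V) (qF q : V)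
  (e : Fin k → Fin p → ℚ) (i : Fin k → Fin p), 2 ≤ p → LF Λ ht A → Orb A AF k p v → GQ AF qF →
  GQ A q → Dir AF v qF q e → IsB AF BF → ∀ m : ℕ,
    cnt Λ ht (Bx BF qF) m ≤ cnt Λ ht (Bx (GB BF v i) q)
      (m + ∑ j, (univ.filter (fun i' => e j i' < e j (i j))).card)

/-- PHK: the generating function of the shifts -/
def T_PHK : Prop := ∀ (k p : ℕ) (e : Fin k → Fin p → ℚ), (∀ j, Function.Injective (e j)) →
  ∑ i : Fin k → Fin p, (PowerSeries.X : PowerSeries ℤ) ^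
    (∑ j, (univ.filter (fun i' => e j i' < e j (i j))).card) = Ph p ^ k

/-- KI: the main inequality -/
def T_KI : Prop := ∀ (V : Type) [AddCommGroup V] [Module ℚ V] (Λ : AddSubgroup V)
  (ht : V →ₗ[ℚ] ℚ) (A AF : Finset V) (k p : ℕ) (v : Fin k → Fin p → V), 2 ≤ p → LF Λ ht A →
    Orb A AF k p v → Le (hs Λ ht AF * Ph p ^ k) (hs Λ ht A)

/-- POS: the h*-series is nonnegative -/
def T_POS : Prop := ∀ (V : Type) [AddCommGroup V] [Module ℚ V] (Λ : AddSubgroup V)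
  (ht : V →ₗ[ℚ] ℚ) (A : Finset V), LF Λ ht A → Le 0 (hs Λ ht A)

/-! ### D. Automorphisms -/

/-- SEL: selection of the orbits -/
def T_SEL : Prop := ∀ (V : Type) [AddCommGroup V] [Module ℚ V] (ψ : V →ₗ[ℚ] V)
  (A AF : Finset V) (p : ℕ), p.Prime → AF ⊆ A → (∀ a ∈ A, ψ a ∈ A) → (∀ a ∈ A, (ψ ^ p) a = a) →
  (∀ x, x ∈ Sp AF ↔ x ∈ Sp A ∧ ψ x = x) → (∀ x ∈ Cone A, ψ x = x → x ∈ Cone AF) →
    ∃ (k : ℕ) (v : Fin k → Fin p → V), Orb A AF k p v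

/-- FIX: the span of the fixed cone -/
def T_FIX : Prop := ∀ (V : Type) [AddCommGroup V] [Module ℚ V] (ψ : V →ₗ[ℚ] V)
  (A AF : Finset V) (p : ℕ), 1 ≤ p → (∀ x ∈ Cone A, ψ x ∈ Cone A) → (∀ a ∈ A, (ψ ^ p) a = a) →
  (∀ x, x ∈ Cone AF ↔ x ∈ Cone A ∧ ψ x = x) → ∀ x, x ∈ Sp AF ↔ x ∈ Sp A ∧ ψ x = x

/-- HSC: the h*-series depends only on the cone -/
def T_HSC : Prop := ∀ (V : Type) [AddCommGroup V] [Module ℚ V] (Λ : AddSubgroup V)
  (ht : V →ₗ[ℚ] ℚ) (A A' : Finset V), Cone A = Cone A' →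
    rk A = rk A' ∧ hs Λ ht A = hs Λ ht A'

/-- KIG: the main inequality for an automorphism of order p -/
def T_KIG : Prop := ∀ (V : Type) [AddCommGroup V] [Module ℚ V] (Λ : AddSubgroup V)
  (ht : V →ₗ[ℚ] ℚ) (ψ : V →ₗ[ℚ] V) (A A₀ : Finset V) (p : ℕ), p.Prime → LF Λ ht A →
  (∀ a ∈ A₀, a ∈ Λ ∧ ht a = 1) → (∀ x ∈ Λ, ψ x ∈ Λ) → (∀ x, ht (ψ x) = ht x) →
  (∀ a ∈ A, (ψ ^ p) a = a) → (∀ x ∈ Cone A, ψ x ∈ Cone A) →
  (∀ x, x ∈ Cone A₀ ↔ x ∈ Cone A ∧ ψ x = x) →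
    ∃ k, rk A = rk A₀ + k * (p - 1) ∧ Le (hs Λ ht A₀ * Ph p ^ k) (hs Λ ht A)

/-! ### E. Matrices of finite order -/

/-- CPW: the eigenvalues of a power -/
def T_CPW : Prop := ∀ (ι : Type) [Fintype ι] [DecidableEq ι] (M : Matrix ι ι ℂ) (k : ℕ), 1 ≤ k →
  (M ^ k).charpoly.roots = M.charpoly.roots.map (fun z => z ^ k)

/-- CYF: the characteristic polynomial is a product of cyclotomic polynomials -/
def T_CYF : Prop := ∀ (ι : Type) [Fintype ι] [DecidableEq ι] (M : Matrix ι ι ℤ) (p r : ℕ),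
  p.Prime → M ^ p ^ r = 1 → ∃ n : ℕ → ℕ,
    M.charpoly = ∏ l ∈ range (r + 1), Polynomial.cyclotomic (p ^ l) ℤ ^ n l

/-- the number of eigenvalues of order dividing p^s -/
def es (p : ℕ) (n : ℕ → ℕ) (s : ℕ) : ℕ := ∑ l ∈ range (s + 1), n l * (p ^ l).totient

/-- the part of the characteristic polynomial without the eigenvalue 1 -/
noncomputable def Dp (p r : ℕ) (n : ℕ → ℕ) (s : ℕ) : Polynomial ℤ :=
  ∏ l ∈ Ioc s r, Polynomial.cyclotomic (p ^ (l - s)) ℤ ^ (p ^ s * n l)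

/-- CYP: the characteristic polynomials of the powers -/
def T_CYP : Prop := ∀ (ι : Type) [Fintype ι] [DecidableEq ι] (M : Matrix ι ι ℤ) (p r : ℕ)
  (n : ℕ → ℕ), p.Prime →
  M.charpoly = ∏ l ∈ range (r + 1), Polynomial.cyclotomic (p ^ l) ℤ ^ n l → ∀ s, s ≤ r →
    (M ^ p ^ s).charpoly = (Polynomial.X - 1) ^ es p n s * Dp p r n s

/-- CYR: the reversed polynomials -/
def T_CYR : Prop := ∀ (ι : Type) [Fintype ι] [DecidableEq ι] (N : Matrix ι ι ℤ) (p r : ℕ)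
  (n : ℕ → ℕ) (s : ℕ), p.Prime → s ≤ r →
  N.charpoly = (Polynomial.X - 1) ^ es p n s * Dp p r n s →
    N.charpolyRev = (1 - Polynomial.X) ^ es p n s * Dp p r n s

/-- the linear map on ℚ^ι given by an integral matrix -/
noncomputable def Lm {ι : Type} [Fintype ι] [DecidableEq ι] (M : Matrix ι ι ℤ) :
    (ι → ℚ) →ₗ[ℚ] (ι → ℚ) := Matrix.toLin' (M.map (fun z : ℤ => (z : ℚ)))

/-- CYD: the dimension of the fixed space of a matrix of finite order -/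
def T_CYD : Prop := ∀ (ι : Type) [Fintype ι] [DecidableEq ι] (N : Matrix ι ι ℤ) (t e : ℕ)
  (D : Polynomial ℤ), 1 ≤ t → N ^ t = 1 → N.charpoly = (Polynomial.X - 1) ^ e * D →
    D.eval 1 ≠ 0 → Module.finrank ℚ (LinearMap.ker (Lm N - 1)) = e

/-- CYC: summary -/
def T_CYC : Prop := ∀ (ι : Type) [Fintype ι] [DecidableEq ι] (M : Matrix ι ι ℤ) (p r : ℕ),
  p.Prime → M ^ p ^ r = 1 → ∃ n : ℕ → ℕ, ∀ s, s ≤ r →
    (M ^ p ^ s).charpolyRev = (1 - Polynomial.X) ^ es p n s * Dp p r n s ∧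
    Module.finrank ℚ (LinearMap.ker (Lm (M ^ p ^ s) - 1)) = es p n s

/-- CYK: powers prime to p -/
def T_CYK : Prop := ∀ (ι : Type) [Fintype ι] [DecidableEq ι] (M : Matrix ι ι ℤ) (p r a : ℕ),
  p.Prime → M ^ p ^ r = 1 → ¬ p ∣ a → (M ^ a).charpolyRev = M.charpolyRev

/-- CNG: congruences between the characteristic polynomials -/
def T_CNG : Prop := ∀ (p r : ℕ) (n : ℕ → ℕ), p.Prime → ∀ s, s < r →
  (Polynomial.C ((p : ℤ) ^ (s + 1))) ∣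
    ((1 - Polynomial.X) ^ es p n (s + 1) * Dp p r n (s + 1) -
      (1 - Polynomial.X) ^ es p n s * Dp p r n s)

/-- PIN: inequalities between the characteristic polynomials -/
def T_PIN : Prop := ∀ (p r : ℕ) (n : ℕ → ℕ), p.Prime →
  (∀ s, Le 0 (Dp p r n s : PowerSeries ℤ)) ∧ ∀ s, s < r → ∃ E : PowerSeries ℤ, Le 0 E ∧
    (Dp p r n s : PowerSeries ℤ) = Ph p ^ (p ^ s * n (s + 1)) * E ∧
    Le E (Dp p r n (s + 1) : PowerSeries ℤ)

/-! ### F. The abstract theorem -/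

/-- FPC: fixed points of powers of a permutation -/
def T_FPC : Prop := ∀ (X : Type) [Finite X] (f : Equiv.Perm X) (p s : ℕ), p.Prime →
  ((p : ℤ) ^ (s + 1)) ∣ (Nat.card {x // (f ^ p ^ (s + 1)) x = x} : ℤ) -
    Nat.card {x // (f ^ p ^ s) x = x}

/-- EFF: the G-set with given numbers of fixed points -/
def T_EFF : Prop := ∀ (G : Type) [Group G] [Finite G] (p r : ℕ) (g₀ : G), p.Prime →
  Nat.card G = p ^ r → (∀ g : G, g ∈ Subgroup.zpowers g₀) → ∀ a : ℕ → ℤ, 0 ≤ a 0 →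
  (∀ s, s < r → a s ≤ a (s + 1)) → (∀ s, s < r → ((p : ℤ) ^ (s + 1)) ∣ a (s + 1) - a s) →
    ∃ (X : Type) (_ : Fintype X) (_ : MulAction G X), ∀ s, s ≤ r → ∀ c, ¬ p ∣ c →
      (Fintype.card (MulAction.fixedBy X (g₀ ^ (p ^ s * c))) : ℤ) = a s

/-- the lattice ℤ^ι in ℚ^ι -/
def ZL (ι : Type) : AddSubgroup (ι → ℚ) where
  carrier := {x | ∀ i, ∃ z : ℤ, x i = z}
  zero_mem' := fun _ => ⟨0, by simp⟩
  add_mem' := by
    intro x y hx hy i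
    obtain ⟨a, ha⟩ := hx i
    obtain ⟨b, hb⟩ := hy i
    exact ⟨a + b, by rw [Pi.add_apply, ha, hb]; push_cast; rfl⟩
  neg_mem' := by
    intro x hx i
    obtain ⟨a, ha⟩ := hx i
    exact ⟨-a, by rw [Pi.neg_apply, ha]; push_cast; rfl⟩

/-- the value of the h*-series at the p^s-th power of the generator -/
noncomputable def th {ι : Type} [Fintype ι] [DecidableEq ι] (ht : (ι → ℚ) →ₗ[ℚ] ℚ)
    (M : Matrix ι ι ℤ) (A : Finset (ι → ℚ)) : PowerSeries ℤ :=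
  ser (ZL ι) ht (Cone A) * (M.charpolyRev : PowerSeries ℤ)

/-- the hypotheses of the abstract theorem -/
structure Sys {ι : Type} [Fintype ι] [DecidableEq ι] (ht : (ι → ℚ) →ₗ[ℚ] ℚ)
    (M : Matrix ι ι ℤ) (p r : ℕ) (A : ℕ → Finset (ι → ℚ)) : Prop where
  prime : p.Prime
  order : M ^ p ^ r = 1
  height : ∀ x, ht (Lm M x) = ht x
  fin : ∀ s, s ≤ r → LF (ZL ι) ht (A s)
  top : Sp (A r) = ⊤
  inv : ∀ x ∈ Cone (A r), Lm M x ∈ Cone (A r)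
  fix : ∀ s, s ≤ r → ∀ x, x ∈ Cone (A s) ↔ x ∈ Cone (A r) ∧ Lm (M ^ p ^ s) x = x

/-- AB1: nonnegativity -/
def T_AB1 : Prop := ∀ (ι : Type) [Fintype ι] [DecidableEq ι] (ht : (ι → ℚ) →ₗ[ℚ] ℚ)
  (M : Matrix ι ι ℤ) (p r : ℕ) (A : ℕ → Finset (ι → ℚ)), Sys ht M p r A →
    Le 0 (th ht (M ^ p ^ 0) (A 0))

/-- AB2: monotonicity -/
def T_AB2 : Prop := ∀ (ι : Type) [Fintype ι] [DecidableEq ι] (ht : (ι → ℚ) →ₗ[ℚ] ℚ)
  (M : Matrix ι ι ℤ) (p r : ℕ) (A : ℕ → Finset (ι → ℚ)), Sys ht M p r A → ∀ s, s < r →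
    Le (th ht (M ^ p ^ s) (A s)) (th ht (M ^ p ^ (s + 1)) (A (s + 1)))

/-- AB3: congruences -/
def T_AB3 : Prop := ∀ (ι : Type) [Fintype ι] [DecidableEq ι] (ht : (ι → ℚ) →ₗ[ℚ] ℚ)
  (M : Matrix ι ι ℤ) (p r : ℕ) (A : ℕ → Finset (ι → ℚ)), Sys ht M p r A → ∀ s, s < r → ∀ m,
    ((p : ℤ) ^ (s + 1)) ∣ PowerSeries.coeff m (th ht (M ^ p ^ (s + 1)) (A (s + 1))) -
      PowerSeries.coeff m (th ht (M ^ p ^ s) (A s))

/-! ### G. The bridge to real polytopes -/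

/-- the vector (x, m) of ℚ^(d+1) -/
def pt {d : ℕ} (x : Fin d → ℤ) (m : ℕ) : Fin d ⊕ Unit → ℚ :=
  Sum.elim (fun i => (x i : ℚ)) (fun _ => (m : ℚ))

/-- the generators of the cone over the convex hull of S -/
noncomputable def gen {d : ℕ} (S : Finset (Fin d → ℤ)) : Finset (Fin d ⊕ Unit → ℚ) :=
  S.image (fun x => pt x 1)

/-- the last coordinate -/
noncomputable def lc (d : ℕ) : (Fin d ⊕ Unit → ℚ) →ₗ[ℚ] ℚ := LinearMap.proj (Sum.inr ())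

/-- RQ: real and rational convex combinations of integral points -/
def T_RQ : Prop := ∀ (d : ℕ) (S : Finset (Fin d → ℤ)) (x : Fin d → ℤ) (m : ℕ), 1 ≤ m →
  ((fun i => (x i : ℝ) / (m : ℝ)) ∈ convexHull ℝ ((fun (v : Fin d → ℤ) (i : Fin d) =>
    (v i : ℝ)) '' (S : Set (Fin d → ℤ))) ↔ pt x m ∈ Cone (gen S))

/-- ACT: fixed points of the affine and of the linear action -/
def T_ACT : Prop := ∀ (G : Type) [Group G] (d : ℕ) (ρ : AffAct G d) (g : G) (x : Fin d → ℤ)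
  (m : ℕ), 1 ≤ m → (ρ.act g (fun i => (x i : ℝ) / (m : ℝ)) = (fun i => (x i : ℝ) / (m : ℝ)) ↔
    Lm (ρ.hom g) (pt x m) = pt x m)

/-- HOM: ρ.hom is multiplicative -/
def T_HOM : Prop := ∀ (G : Type) [Group G] (d : ℕ) (ρ : AffAct G d) (g h : G),
  ρ.hom (g * h) = ρ.hom g * ρ.hom h ∧ ρ.hom 1 = 1

/-- LFZ: finiteness for integral generators -/
def T_LFZ : Prop := ∀ (d : ℕ) (S : Finset (Fin d → ℤ)), LF (ZL (Fin d ⊕ Unit)) (lc d) (gen S)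

/-- TOP: full dimension -/
def T_TOP : Prop := ∀ (d : ℕ) (S : Finset (Fin d → ℤ)),
  (interior (convexHull ℝ ((fun (v : Fin d → ℤ) (i : Fin d) => (v i : ℝ)) ''
    (S : Set (Fin d → ℤ))))).Nonempty → Sp (gen S) = ⊤

/-- SCL: a vector with positive last coordinate is a positive multiple of an integral one -/
def T_SCL : Prop := ∀ (d : ℕ) (y : Fin d ⊕ Unit → ℚ), 0 < lc d y →
  ∃ (c : ℚ) (x : Fin d → ℤ) (m : ℕ), 0 < c ∧ 1 ≤ m ∧ c • y = pt x m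

/-- CFX: the fixed cone -/
def T_CFX : Prop := ∀ (G : Type) [Group G] (d : ℕ) (ρ : AffAct G d) (g : G)
  (S T : Finset (Fin d → ℤ)),
  {x | x ∈ convexHull ℝ ((fun (v : Fin d → ℤ) (i : Fin d) => (v i : ℝ)) ''
    (S : Set (Fin d → ℤ))) ∧ ρ.act g x = x} = convexHull ℝ ((fun (v : Fin d → ℤ) (i : Fin d) =>
    (v i : ℝ)) '' (T : Set (Fin d → ℤ))) →
    ∀ y, y ∈ Cone (gen T) ↔ y ∈ Cone (gen S) ∧ Lm (ρ.hom g) y = y

/-- CIV: the cone is invariant -/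
def T_CIV : Prop := ∀ (G : Type) [Group G] (d : ℕ) (ρ : AffAct G d) (g : G)
  (S : Finset (Fin d → ℤ)),
  (∀ x ∈ convexHull ℝ ((fun (v : Fin d → ℤ) (i : Fin d) => (v i : ℝ)) ''
    (S : Set (Fin d → ℤ))), ρ.act g x ∈ convexHull ℝ ((fun (v : Fin d → ℤ) (i : Fin d) =>
    (v i : ℝ)) '' (S : Set (Fin d → ℤ)))) →
    ∀ y ∈ Cone (gen S), Lm (ρ.hom g) y ∈ Cone (gen S)

/-- NUM: the two counting functions agree -/
def T_NUM : Prop := ∀ (G : Type) [Group G] (d : ℕ) (ρ : AffAct G d) (g : G)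
  (S T : Finset (Fin d → ℤ)) (m : ℕ),
  (∀ y, y ∈ Cone (gen T) ↔ y ∈ Cone (gen S) ∧ Lm (ρ.hom g) y = y) →
    ρ.num (convexHull ℝ ((fun (v : Fin d → ℤ) (i : Fin d) => (v i : ℝ)) ''
      (S : Set (Fin d → ℤ)))) g m = cnt (ZL (Fin d ⊕ Unit)) (lc d) (Cone (gen T)) m

/-- FIN: the final theorem -/
def T_FIN : Prop := ∀ (p r : ℕ), p.Prime → ∀ (G : Type) [Group G] [Finite G], IsCyclic G →
  Nat.card G = p ^ r → ∀ (d : ℕ) (ρ : AffAct G d) (P : Set (Fin d → ℝ)), IsLatPoly P →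
  (interior P).Nonempty → (∀ g, ∀ x ∈ P, ρ.act g x ∈ P) →
  (∀ g, IsLatPoly {x | x ∈ P ∧ ρ.act g x = x}) → ∀ i : ℕ,
    ∃ (X : Type) (_ : Fintype X) (_ : MulAction G X), ∀ g : G,
      PowerSeries.coeff i (ρ.hstar P g) = (Fintype.card (MulAction.fixedBy X g) : ℤ)

end Pool.Agent.H90.EH
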